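import Pool.Agent.Y703.CT.StmC
import Pool.Agent.Y700.ShaVC

/-!
# CT-DESQ: from `ℚ(ω)` to `ℚ` and transfer to `y² + D y = x³`
-/

set_option autoImplicit false

namespace Pool.Agent.Y692.CT

open WeierstrassCurve
open Pool.Agent.Y703.CT
open Pool.Agent.Y692.QS (Ei w nr toC)
open Pool.Agent.Y715.T.Gi Pool.Agent.Y715.T.Nr Pool.Agent.Y715.T.Df Pool.Agent.Y715.T.Ell
open Pool.Agent.Y700 (VR nonsing)

open scoped Classical

lemma pt_ext {F : Type} [Field F] {W : WeierstrassCurve F} {x y x' y' : F}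
    (h : W.toAffine.Nonsingular x y) (h' : W.toAffine.Nonsingular x' y') (hx : x = x')
    (hy : y = y') : (Affine.Point.some x y h : W.toAffine.Point) = .some x' y' h' := by
  subst hx hy
  rfl

/-- the points of `y² + D y = x³` -/
abbrev PD (D : ℤ) (L : Type) [Field L] [Algebra ℚ L] : Type :=
  Pool.Agent.W262.SH.Pt (EQ (WD D)) L

/-- the action of homomorphisms -/
noncomputable abbrev ac (D : ℤ) {F L : Type} [Field F] [Field L] [Algebra ℚ F] [Algebra ℚ L]
    (φ : F →ₐ[ℚ] L) : PD D F →+ PD D L := Pool.Agent.W262.SH.act (EQ (WD D)) φ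

section

variable {D : ℤ} (hD : D ≠ 0) {L : Type} [Field L] [Algebra ℚ L] [CharZero L] {u : L}
  (hu : u ^ 3 = D)

include hD hu in
omit [Algebra ℚ L] in
lemma u_ne : u ≠ 0 := by
  rintro rfl
  apply hD
  have : ((D : ℤ) : L) = 0 := by rw [← hu]; ring
  exact_mod_cast this

include hD hu in
lemma vr : VR ((EQ (WD D)).map (algebraMap ℚ L)) (W0.map (algebraMap ℚ L)) u 0 0 0 where
  u0 := u_ne hD hu
  e1 := by simp [WD, W0]
  e2 := by simp [WD, W0]
  e3 := by simp [WD, W0, hu]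
  e4 := by simp [WD, W0]
  e6 := by simp [WD, W0]

lemma W0_delta : W0.Δ ≠ 0 := by
  unfold W0 WeierstrassCurve.Δ WeierstrassCurve.b₂ WeierstrassCurve.b₄ WeierstrassCurve.b₆
    WeierstrassCurve.b₈
  norm_num

/-- the isomorphism `(x, y) ↦ (u² x, u³ y)` -/
noncomputable def Ph : Pt L ≃+ PD D L := (vr hD hu).equiv (Pool.Agent.Y700.dL W0_delta L)

include hD hu in
lemma Ph_nons {x y : L} (h : (W0.baseChange L).toAffine.Nonsingular x y) :
    ((EQ (WD D)).baseChange L).toAffine.Nonsingular (u ^ 2 * x) (D * y) := by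
  have h1 := nonsing ((vr hD hu).delta_ne (Pool.Agent.Y700.dL W0_delta L)) ((vr hD hu).eqn.2 h.1)
  have e1 : u ^ 2 * x + 0 = u ^ 2 * x := by ring
  have e2 : u ^ 3 * y + u ^ 2 * 0 * x + 0 = D * y := by rw [hu]; ring
  rwa [e1, e2] at h1

lemma Ph_some {x y : L} (h : (W0.baseChange L).toAffine.Nonsingular x y) :
    Ph hD hu (.some x y h) = .some (u ^ 2 * x) (D * y) (Ph_nons hD hu h) := by
  have h1 : Ph hD hu (.some x y h) = .some (u ^ 2 * x + 0) (u ^ 3 * y + u ^ 2 * 0 * x + 0)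
    (nonsing ((vr hD hu).delta_ne (Pool.Agent.Y700.dL W0_delta L)) ((vr hD hu).eqn.2 h.1)) := rfl
  exact h1.trans (pt_ext _ _ (by ring) (by rw [hu]; ring))

omit [CharZero L] in
lemma ac_some {F : Type} [Field F] [Algebra ℚ F] (φ : F →ₐ[ℚ] L) {x y : F}
    (h : ((EQ (WD D)).baseChange F).toAffine.Nonsingular x y) :
    ac D φ (.some x y h) =
      .some (φ x) (φ y) ((Affine.baseChange_nonsingular (EQ (WD D)) φ.injective ..).mpr h) := rfl

lemma ac_Ph {F : Type} [Field F] [Algebra ℚ F] [CharZero F] (φ : F →ₐ[ℚ] L) {v : F}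
    (hv : v ^ 3 = D) (h : φ v = u) (P : Pt F) : ac D φ (Ph hD hv P) = Ph hD hu (pm φ P) := by
  rcases P with _ | ⟨x, y, hn⟩
  · show ac D φ (Ph hD hv 0) = Ph hD hu (pm φ 0)
    simp only [map_zero]
  · rw [pm_some, Ph_some, Ph_some, ac_some, Affine.Point.some.injEq]
    refine ⟨by rw [map_mul, map_pow, h], by rw [map_mul, map_intCast]⟩

lemma it_some {I : L} (hI : I ^ 2 + I + 1 = 0) (n : ℕ) {x y : L}
    (h : (W0.baseChange L).toAffine.Nonsingular x y) :
    ∃ h' : (W0.baseChange L).toAffine.Nonsingular (I ^ n * x) y,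
      (im (isE L) hI)^[n] (.some x y h) = .some (I ^ n * x) y h' := by
  induction n with
  | zero => 
    have h' : (W0.baseChange L).toAffine.Nonsingular (I ^ 0 * x) y := by
      rwa [pow_zero, one_mul]
    refine ⟨h', ?_⟩
    rw [Function.iterate_zero, id_eq, Affine.Point.some.injEq]
    exact ⟨by ring, rfl⟩
  | succ n ih =>
    obtain ⟨h', e⟩ := ih
    have h2 : (W0.baseChange L).toAffine.Nonsingular (I ^ (n + 1) * x) y := by
      have := (isE L).im_nons hI h'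
      rwa [← mul_assoc, ← pow_succ'] at this
    refine ⟨h2, ?_⟩
    rw [Function.iterate_succ', Function.comp_apply, e, im_some, Affine.Point.some.injEq]
    exact ⟨by ring, rfl⟩

lemma jj_zero {I : L} (hI : I ^ 2 + I + 1 = 0) (c : ZMod 3) : jj hI c (0 : Pt L) = 0 := by
  unfold jj
  exact Function.iterate_fixed (map_zero _) _

lemma Ph_tw {I : L} (hI : I ^ 2 + I + 1 = 0) {v : L} (hv : v ^ 3 = D) (c : ZMod 3)
    (h : v = I ^ (-c).val * u) (P : Pt L) : Ph hD hv P = Ph hD hu (jj hI c P) := by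
  rcases P with _ | ⟨x, y, hn⟩
  · show Ph hD hv 0 = Ph hD hu (jj hI c 0)
    rw [jj_zero, map_zero, map_zero]
  · obtain ⟨h', e⟩ := it_some hI c.val hn
    have hI3 : I ^ 3 = 1 := by linear_combination (I - 1) * hI
    have e1 : jj hI c (.some x y hn) = .some (I ^ c.val * x) y h' := e
    rw [e1, Ph_some, Ph_some, Affine.Point.some.injEq]
    refine ⟨?_, rfl⟩
    rw [h]
    have e2 : (I ^ (-c).val) ^ 2 = I ^ c.val := by
      rcases z3 c with rfl | rfl | rfl
      · simp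
      · have a1 : (-1 : ZMod 3).val = 2 := by decide
        have a2 : (1 : ZMod 3).val = 1 := by decide
        rw [a1, a2]
        linear_combination I * hI3
      · have a1 : (-1 : ZMod 3).val = 2 := by decide
        have a2 : (1 : ZMod 3).val = 1 := by decide
        rw [neg_neg, a1, a2]
        ring
    rw [mul_pow, e2]
    ring

end

/-! ### Finite groups -/

lemma pv {G : Type} [AddCommGroup G] [Finite G] (T : G) (hT : T ≠ 0) (h3 : 3 • T = 0)
    (h : ∀ P : G, 9 • P = 0 → P = 0 ∨ P = T ∨ P = -T) : padicValNat 3 (Nat.card G) = 1 := by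
  have hp : Fact (Nat.Prime 3) := ⟨Nat.prime_three⟩
  have h0 : Nat.card G ≠ 0 := Nat.card_pos.ne'
  have h3d : 3 ∣ Nat.card G := by
    have h1 : addOrderOf T = 3 := addOrderOf_eq_prime h3 hT
    rw [← h1]
    exact addOrderOf_dvd_natCard T
  have h9 : ¬ 3 ^ 2 ∣ Nat.card G := by
    intro hd
    have hd' : 3 ^ 2 ∣ Nat.card (Multiplicative G) := hd
    obtain ⟨H, hH⟩ := Sylow.exists_subgroup_card_pow_prime 3 hd'
    have hsub : (H : Set (Multiplicative G)) ⊆
        {Multiplicative.ofAdd 0, Multiplicative.ofAdd T, Multiplicative.ofAdd (-T)} := by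
      intro x hx
      have h1 : (⟨x, hx⟩ : H) ^ Nat.card H = 1 := pow_card_eq_one'
      rw [hH] at h1
      have h2 : x ^ 9 = 1 := by
        have := congrArg Subtype.val h1
        exact this
      have h4 : 9 • Multiplicative.toAdd x = 0 := h2
      rcases h _ h4 with h5 | h5 | h5
      · left; exact h5
      · right; left; exact h5
      · right; right; exact h5
    have h1 : Nat.card H ≤ 3 := by
      have h2 := Set.ncard_le_ncard hsub (Set.toFinite _)
      rw [← Nat.card_coe_set_eq] at h2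
      refine le_trans h2 ?_
      refine le_trans (Set.ncard_insert_le _ _) ?_
      refine le_trans (Nat.add_le_add_right (Set.ncard_insert_le _ _) 1) ?_
      rw [Set.ncard_singleton]
    rw [hH] at h1
    norm_num at h1
  have h1 : 1 ≤ padicValNat 3 (Nat.card G) := one_le_padicValNat_of_dvd h0 h3d
  have h2 : ¬ 2 ≤ padicValNat 3 (Nat.card G) := fun h2 =>
    h9 ((padicValNat_dvd_iff_le h0).2 h2)
  omega

/-! ### Galois groups -/

section gal

variable {i₀ : QB}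

/-- restriction of scalars -/
noncomputable def rs (σ : GK i₀) : QB ≃ₐ[ℚ] QB := σ.restrictScalars ℚ

lemma rs_apply (σ : GK i₀) (x : QB) : rs σ x = σ x := rfl

lemma rs_hom (σ : GK i₀) : (rs σ).toAlgHom = gh σ := rfl

lemma rs_mul (σ τ : GK i₀) : rs (σ * τ) = rs σ * rs τ := rfl

lemma rs_ex {σ : QB ≃ₐ[ℚ] QB} (h : σ i₀ = i₀) : ∃ τ : GK i₀, rs τ = σ := by
  have hfix : σ ∈ (KK i₀).fixingSubgroup := by
    rw [IntermediateField.mem_fixingSubgroup_iff]
    intro x hx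
    have hint : IsAlgebraic ℚ i₀ := Algebra.IsAlgebraic.isAlgebraic i₀
    have h1 : x ∈ Algebra.adjoin ℚ {i₀} := by
      rw [← IntermediateField.adjoin_simple_toSubalgebra_of_isAlgebraic hint]
      exact hx
    clear hx
    induction h1 using Algebra.adjoin_induction with
    | mem y hy =>
      rw [Set.mem_singleton_iff] at hy
      rw [hy, h]
    | algebraMap r => exact σ.commutes r
    | add y z _ _ ihy ihz => rw [map_add, ihy, ihz]
    | mul y z _ _ ihy ihz => rw [map_mul, ihy, ihz]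
  exact ⟨(IntermediateField.fixingSubgroupEquiv (KK i₀)) ⟨σ, hfix⟩, rfl⟩

lemma rs_cont : Continuous (rs : GK i₀ → (QB ≃ₐ[ℚ] QB)) := by
  let R : GK i₀ →* (QB ≃ₐ[ℚ] QB) := ⟨⟨rs, rfl⟩, rs_mul⟩
  change Continuous R
  apply continuous_of_continuousAt_one
  unfold ContinuousAt
  rw [map_one]
  intro s hs
  obtain ⟨E, hE, hEs⟩ := (krullTopology_mem_nhds_one_iff ℚ QB s).1 hs
  have : Algebra.IsSeparable ℚ E := inferInstance
  obtain ⟨α, hα⟩ := Field.exists_primitive_element ℚ E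
  have ho : (MulAction.stabilizer (GK i₀) (α : QB) : Set (GK i₀)) ∈ nhds (1 : GK i₀) :=
    (stabilizer_isOpen_of_isIntegral (K := KK i₀) (α : QB)).mem_nhds
      (MulAction.stabilizer (GK i₀) (α : QB)).one_mem
  rw [Filter.mem_map]
  refine Filter.mem_of_superset ho fun τ hτ => hEs ?_
  have hτ' : τ (α : QB) = α := hτ
  show (rs τ) ∈ E.fixingSubgroup
  rw [IntermediateField.mem_fixingSubgroup_iff]
  intro x hx
  have key : ((rs τ).toAlgHom.comp E.val) = E.val := by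
    refine AlgHom.ext fun y => ?_
    have hy : y ∈ (⊤ : IntermediateField ℚ E) := trivial
    rw [← hα] at hy
    refine IntermediateField.adjoin_induction ℚ
      (p := fun y _ => ((rs τ).toAlgHom.comp E.val) y = E.val y) ?_ ?_ ?_ ?_ ?_ hy
    · intro y hy
      rw [Set.mem_singleton_iff] at hy
      subst hy
      exact hτ'
    · intro y
      exact (((rs τ).toAlgHom.comp E.val).commutes y).trans (E.val.commutes y).symm
    · intro x y _ _ hx hy
      rw [map_add, map_add, hx, hy]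
    · intro x _ hx
      rw [map_inv₀, map_inv₀, hx]
    · intro x y _ _ hx hy
      rw [map_mul, map_mul, hx, hy]
  exact DFunLike.congr_fun key ⟨x, hx⟩

end gal

/-! ### The main steps -/

section main

variable {D : ℤ} (hD : D ≠ 0) {i₀ : QB} (hi : i₀ ^ 2 + i₀ + 1 = 0) {u : QB} (hu : u ^ 3 = D)
  {a : GK i₀ → ZMod 3} (ha : ∀ σ : GK i₀, σ u = i₀ ^ (-a σ).val * u)

include ha in
/-- the action on the two curves -/
lemma act_Ph (σ : GK i₀) (P : Pt QB) :
    ac D (gh σ) (Ph hD hu P) = Ph hD hu (act hi a σ P) := by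
  have hv : (σ u) ^ 3 = (D : QB) := by rw [← map_pow, hu, map_intCast]
  rw [ac_Ph hD hv (gh σ) hu rfl, Ph_tw hD hu hi hv (a σ) (ha σ)]
  rfl

include ha in
/-- the local action on the two curves -/
lemma act_Ph_loc {p : ℕ} [Fact p.Prime] (ι : QB →ₐ[ℚ] PadicAlgCl p) (hv : (ι u) ^ 3 = (D : PadicAlgCl p))
    {τ : Au p} {σ : GK i₀} (hc : Cmp ι τ σ) (R : Pt (PadicAlgCl p)) :
    ac D (lh τ) (Ph hD hv R) = Ph hD hv (jj (iota_sq' hi ι) (a σ) (pm (lh τ) R)) := by
  have h1 : (lh τ) (ι u) = (ι i₀) ^ (-a σ).val * ι u := by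
    rw [lh_apply, hc, ha, map_mul, map_pow]
  have hw : ((lh τ) (ι u)) ^ 3 = (D : PadicAlgCl p) := by rw [← map_pow, hv, map_intCast]
  rw [ac_Ph hD hw (lh τ) hv rfl, Ph_tw hD hv (iota_sq' hi ι) hw (a σ) h1]

end main

section rat

variable {D : ℤ} (hD : D ≠ 0) {i₀ : QB} (hi : i₀ ^ 2 + i₀ + 1 = 0) {u : QB} (hu : u ^ 3 = D)
  {a : GK i₀ → ZMod 3} (ha : ∀ σ : GK i₀, σ u = i₀ ^ (-a σ).val * u)
  {k : Type} [Field k] [Algebra ℚ k] (ψ : k →ₐ[ℚ] QB)
  (hψ : ∀ σ : GK i₀, (gh σ).comp ψ = ψ)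

/-- the rational points in the geometric points of `E` -/
noncomputable def em : PD D k →+ Pt QB := (Ph hD hu).symm.toAddMonoidHom.comp (ac D ψ)

lemma em_eq (P : PD D k) : Ph hD hu (em hD hu ψ P) = ac D ψ P :=
  (Ph hD hu).apply_symm_apply _

lemma em_inj : Function.Injective (em hD hu ψ) :=
  (Ph hD hu).symm.injective.comp (Affine.Point.map_injective ψ)

include ha hψ in
lemma em_fix (σ : GK i₀) (P : PD D k) : act hi a σ (em hD hu ψ P) = em hD hu ψ P := by
  apply (Ph hD hu).injective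
  rw [← act_Ph hD hi hu ha, em_eq]
  have h1 := Pool.Agent.TH841.SH.act_act (EQ (WD D)) ψ (gh σ) P
  refine h1.trans ?_
  rw [hψ]

include hD hu ψ in
lemma TQ_nons : ((EQ (WD D)).baseChange k).toAffine.Nonsingular 0 0 := by
  have h1 := Ph_nons hD hu (T0_nons (isE QB))
  have h2 : ((EQ (WD D)).baseChange QB).toAffine.Nonsingular (ψ (0 : k)) (ψ (0 : k)) := by
    rw [map_zero]
    rwa [mul_zero, mul_zero] at h1
  exact (Affine.baseChange_nonsingular (EQ (WD D)) ψ.injective ..).mp h2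

/-- the rational point of order three -/
noncomputable def TQ : PD D k := .some 0 0 (TQ_nons hD hu ψ)

lemma em_TQ : em hD hu ψ (TQ hD hu ψ) = T0 (isE QB) := by
  apply (Ph hD hu).injective
  rw [em_eq]
  unfold TQ T0
  rw [Ph_some, ac_some, Affine.Point.some.injEq]
  exact ⟨by rw [map_zero, mul_zero], by rw [map_zero, mul_zero]⟩

include hD hi hu ha hψ in
theorem points (hM : MwK hi a) : Finite (PD D k) ∧ padicValNat 3 (Nat.card (PD D k)) = 1 := by
  have hfin : Finite (PD D k) := by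
    have hf := hM.1.to_subtype
    refine Finite.of_injective (fun P : PD D k =>
      (⟨em hD hu ψ P, fun σ => em_fix hD hi hu ha ψ hψ σ P⟩ :
        {P : Pt QB // P ∈ {P : Pt QB | ∀ σ : GK i₀, act hi a σ P = P}})) ?_
    intro P Q h
    exact em_inj hD hu ψ (congrArg Subtype.val h)
  have hinj : Function.Injective (em hD hu ψ) := em_inj hD hu ψ
  have hT : TQ hD hu ψ ≠ 0 := Affine.Point.some_ne_zero _
  have h3 : 3 • TQ hD hu ψ = 0 := by
    apply hinj
    rw [map_nsmul, em_TQ, map_zero]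
    exact T0_add3 (isE QB)
  refine ⟨hfin, pv (TQ hD hu ψ) hT h3 ?_⟩
  intro P hP
  have h1 : 3 ^ 2 • em hD hu ψ P = 0 := by
    have h2 : em hD hu ψ (9 • P) = 9 • em hD hu ψ P := map_nsmul _ _ _
    rw [hP, map_zero] at h2
    exact h2.symm
  rcases hM.2 _ (fun σ => em_fix hD hi hu ha ψ hψ σ P) 2 h1 with h2 | h2 | h2
  · left
    apply hinj
    rw [map_zero]
    exact h2
  · right; left
    apply hinj
    rw [em_TQ]
    exact h2
  · right; right
    apply hinj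
    rw [map_neg, em_TQ]
    exact h2

end rat

section sha

open Pool.Agent.W262.SH (IsCoc IsCob LocTriv shaCoc cob)

variable {D : ℤ} (hD : D ≠ 0) {i₀ : QB} (hi : i₀ ^ 2 + i₀ + 1 = 0) {u : QB} (hu : u ^ 3 = D)
  {a : GK i₀ → ZMod 3} (ha : ∀ σ : GK i₀, σ u = i₀ ^ (-a σ).val * u)

lemma ac_mul (σ τ : QB ≃ₐ[ℚ] QB) (P : PD D QB) :
    ac D (σ * τ).toAlgHom P = ac D σ.toAlgHom (ac D τ.toAlgHom P) :=
  (Pool.Agent.TH841.SH.act_act (EQ (WD D)) τ.toAlgHom σ.toAlgHom P).symm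

lemma ac_one (P : PD D QB) : ac D (1 : QB ≃ₐ[ℚ] QB).toAlgHom P = P := by
  rcases P with _ | ⟨x, y, h⟩
  · exact map_zero _
  · rfl

include hi in
/-- a cocycle whose restriction to `ℚ(ω)` is a coboundary -/
theorem quad (g : (QB ≃ₐ[ℚ] QB) → PD D QB)
    (hg : ∀ σ τ, g (σ * τ) = g σ + ac D σ.toAlgHom (g τ)) (h0 : ∀ σ, σ i₀ = i₀ → g σ = 0) :
    ∃ Q : PD D QB, ∀ σ, 2 • g σ = ac D σ.toAlgHom Q - Q := by
  obtain ⟨c, hc⟩ := exists_conj hi
  have hne : ∀ σ : QB ≃ₐ[ℚ] QB, σ i₀ = i₀ ∨ σ i₀ = -1 - i₀ := by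
    intro σ
    have h1 : (σ i₀) ^ 2 + σ i₀ + 1 = 0 := by
      rw [← map_pow, ← map_add, ← map_one σ, ← map_add, hi, map_zero]
    have h2 : (σ i₀ - i₀) * (σ i₀ - (-1 - i₀)) = 0 := by linear_combination h1 - hi
    rcases mul_eq_zero.1 h2 with h3 | h3
    · exact Or.inl (sub_eq_zero.1 h3)
    · exact Or.inr (sub_eq_zero.1 h3)
  have hconj : ∀ σ : QB ≃ₐ[ℚ] QB, σ i₀ = -1 - i₀ → ∀ τ : QB ≃ₐ[ℚ] QB, τ i₀ = -1 - i₀ →
      (σ * τ) i₀ = i₀ := by
    intro σ hσ τ hτ
    rw [AlgEquiv.mul_apply, hτ, map_sub, map_neg, map_one, hσ]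
    ring
  -- the value on the complement
  have hval : ∀ σ : QB ≃ₐ[ℚ] QB, σ i₀ = -1 - i₀ → g σ = g c := by
    intro σ hσ
    have h1 : g (c * (c⁻¹ * σ)) = g c + ac D c.toAlgHom (g (c⁻¹ * σ)) := hg _ _
    have h2 : (c⁻¹ * σ) i₀ = i₀ := by
      apply c.injective
      rw [AlgEquiv.mul_apply]
      have h3 : c (c⁻¹ (σ i₀)) = σ i₀ := c.apply_symm_apply _
      rw [h3, hσ, hc]
    rw [mul_inv_cancel_left, h0 _ h2, map_zero, add_zero] at h1
    exact h1
  have hcc : g c + ac D c.toAlgHom (g c) = 0 := by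
    rw [← hg, h0 _ (hconj c hc c hc)]
  refine ⟨-g c, fun σ => ?_⟩
  rcases hne σ with h1 | h1
  · -- `σ` fixes `ω`
    have h2 : g (σ * c) = ac D σ.toAlgHom (g c) := by rw [hg, h0 σ h1, zero_add]
    have h3 : g (σ * c) = g c := by
      apply hval
      rw [AlgEquiv.mul_apply, hc, map_sub, map_neg, map_one, h1]
    rw [h0 σ h1, smul_zero, map_neg, ← h2, h3]
    abel
  · have h2 : g σ + ac D σ.toAlgHom (g σ) = 0 := by
      rw [← hg, h0 _ (hconj σ h1 σ h1)]
    rw [hval σ h1] at h2 ⊢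
    rw [map_neg]
    have h3 : ac D σ.toAlgHom (g c) = -g c := by
      rw [eq_neg_iff_add_eq_zero, add_comm]
      exact h2
    rw [h3]
    abel

include hD hi hu ha in
theorem shaQ (hS : ShK hi a) (n : ℕ) (x : Pool.Agent.W262.SH.Sha (EQ (WD D)))
    (hx : 3 ^ n • x = 0) : x = 0 := by
  obtain ⟨f, rfl⟩ := QuotientAddGroup.mk_surjective x
  rw [← QuotientAddGroup.mk_nsmul, QuotientAddGroup.eq_zero_iff,
    AddSubgroup.mem_addSubgroupOf] at hx
  obtain ⟨P, hP⟩ := hx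
  obtain ⟨⟨hc, hm⟩, hl, -⟩ := f.2
  have hP' : ∀ σ, 3 ^ n • f.1 σ = ac D σ.toAlgHom P - P := hP
  -- the restricted cocycle
  let f' : GK i₀ → Pt QB := fun σ => (Ph hD hu).symm (f.1 (rs σ))
  have hf' : ∀ σ, Ph hD hu (f' σ) = f.1 (rs σ) := fun σ => (Ph hD hu).apply_symm_apply _
  have h1 : IsLocallyConstant f' := (hc.comp_continuous rs_cont).comp _
  have h2 : ∀ σ τ, f' (σ * τ) = f' σ + act hi a σ (f' τ) := by
    intro σ τ
    apply (Ph hD hu).injective
    rw [map_add, hf', hf', ← act_Ph hD hi hu ha, hf', rs_mul, hm]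
    rfl
  have h3 : ∀ (p : ℕ) [Fact p.Prime] (ι : QB →ₐ[ℚ] PadicAlgCl p), ∃ R : Pt (PadicAlgCl p),
      ∀ (τ : Au p) (σ : GK i₀), Cmp ι τ σ →
        pm ι (f' σ) = jj (iota_sq' hi ι) (a σ) (pm (lh τ) R) - R := by
    intro p _ ι
    obtain ⟨P0, hP0⟩ : ∃ P0 : PD D (PadicAlgCl p), ∀ (τ : Au p) (σ : QB ≃ₐ[ℚ] QB),
        (lh τ).comp ι = ι.comp σ.toAlgHom → ac D ι (f.1 σ) = ac D (lh τ) P0 - P0 := hl p ι
    have hv : (ι u) ^ 3 = (D : PadicAlgCl p) := by rw [← map_pow, hu, map_intCast]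
    refine ⟨(Ph hD hv).symm P0, fun τ σ hcmp => ?_⟩
    apply (Ph hD hv).injective
    rw [← ac_Ph hD hv ι hu rfl, hf', map_sub, ← act_Ph_loc hD hi ha ι hv hcmp,
      AddEquiv.apply_symm_apply]
    exact hP0 τ (rs σ) (AlgHom.ext fun x => hcmp x)
  have h4 : ∃ Q, ∀ σ, 3 ^ n • f' σ = act hi a σ Q - Q := by
    refine ⟨(Ph hD hu).symm P, fun σ => ?_⟩
    apply (Ph hD hu).injective
    rw [map_nsmul, hf', hP', map_sub, ← act_Ph hD hi hu ha, AddEquiv.apply_symm_apply]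
    rfl
  obtain ⟨R, hR⟩ := hS n f' h1 h2 h3 h4
  obtain ⟨P', hPe⟩ : ∃ P', P' = Ph hD hu R := ⟨_, rfl⟩
  have h5 : ∀ σ : GK i₀, f.1 (rs σ) = ac D (rs σ).toAlgHom P' - P' := by
    intro σ
    rw [← hf', hR, map_sub, ← act_Ph hD hi hu ha, hPe]
    rfl
  obtain ⟨Q, hQ⟩ := quad hi (fun σ => f.1 σ - (ac D σ.toAlgHom P' - P')) (by
    intro σ τ
    show f.1 (σ * τ) - _ = f.1 σ - _ + ac D σ.toAlgHom (f.1 τ - _)
    have h6 : f.1 (σ * τ) = f.1 σ + ac D σ.toAlgHom (f.1 τ) := hm σ τ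
    rw [h6, ac_mul, map_sub, map_sub]
    abel) (by
    intro σ hσ
    obtain ⟨τ, rfl⟩ := rs_ex hσ
    show f.1 (rs τ) - _ = 0
    rw [h5, sub_self])
  obtain ⟨m, hm2⟩ : ∃ m, 3 ^ n = 2 * m + 1 := by
    obtain ⟨m, h⟩ := (show Odd (3 ^ n) from Odd.pow (by decide))
    exact ⟨m, h⟩
  rw [QuotientAddGroup.eq_zero_iff, AddSubgroup.mem_addSubgroupOf]
  refine ⟨P - m • (2 • P' + Q), fun σ => ?_⟩
  have h7 : 2 • (f.1 σ - (ac D σ.toAlgHom P' - P')) = ac D σ.toAlgHom Q - Q := hQ σ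
  have h8 := hP' σ
  rw [hm2] at h8
  show f.1 σ = ac D σ.toAlgHom (P - m • (2 • P' + Q)) - (P - m • (2 • P' + Q))
  rw [map_sub, map_nsmul, map_add, map_nsmul]
  have h9 : (2 * m + 1) • f.1 σ = m • (2 • f.1 σ) + f.1 σ := by
    rw [add_smul, one_smul, mul_comm, mul_smul]
  have h10 : 2 • f.1 σ = ac D σ.toAlgHom Q - Q + 2 • (ac D σ.toAlgHom P' - P') := by
    rw [← h7, smul_sub]
    abel
  rw [h9, h10] at h8
  have h11 : f.1 σ = ac D σ.toAlgHom P - P -
      m • (ac D σ.toAlgHom Q - Q + 2 • (ac D σ.toAlgHom P' - P')) := by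
    rw [← h8]
    abel
  rw [h11]
  simp only [smul_add, smul_sub]
  abel

end sha

/-- **CT-DESQ** -/
theorem desq : S_DESQ := by
  intro D hD i₀ hi u a hT hS hM
  have hu : u ^ 3 = (D : QB) := by
    rw [hT.cube, map_intCast]
  have ha := hT.act
  obtain ⟨h1, h2⟩ := points (k := ℚ) hD hi hu ha (Algebra.ofId ℚ QB) (fun σ =>
    AlgHom.ext fun x => (((gh σ).comp (Algebra.ofId ℚ QB)).commutes x).trans
    ((Algebra.ofId ℚ QB).commutes x).symm) hM
  refine ⟨h1, h2, fun n x hx => ?_⟩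
  have h3 := shaQ hD hi hu ha hS n (Pool.Agent.TH841.SH.D.eSha (EQ (WD D)) x) (by
    rw [← map_nsmul, hx, map_zero])
  exact (map_eq_zero_iff _ (Pool.Agent.TH841.SH.D.eSha (EQ (WD D))).injective).1 h3

end Pool.Agent.Y692.CT
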